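import Mathlib
import Pool.Agent.H80T.FinalF

open Topology H80R

/-- For all `N`, all `k > 2` and all `r > 1` such that some symmetric tensor of order `k` on
`V = ℂ^N` has symmetric rank greater than `r` (that is, for `1 < r < R_S`), the set `Y_r` of
classes of symmetric tensors of symmetric rank at most `r` is not closed in the projective space
of `S^k V`. -/
theorem Pool.Agent.Results.MP_8e338d_ag.FullAnswer.result (N k r : ℕ) (hk : 2 < k) (hr : 1 < r)
    (h : Y N k r ≠ Set.univ) : ¬ IsClosed[projTop N k] (Y N k r) :=
  fun hcl => h (H80T.main_final hk hr hcl)
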